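import Pool.Agent.Q56.WD.Ind

/-!
# Averages over inertia, and extension of the rationality of traces to all elements
-/

set_option autoImplicit false

open Polynomial

namespace Pool.Agent.Q56.WD

open Pool.Agent.Q187.IL (revPoly Indep IndepTrace indep_iff natDegree_le)

section

variable {W K U : Type} [Group W] [Field K] [CharZero K] [AddCommGroup U] [Module K U]
  [FiniteDimensional K U]

/-- The trace on the invariants of `I` is an average, if the subgroup `J` of `I` acts trivially. -/
theorem trace_avg (I J : Subgroup W) [I.Normal] [J.Normal] [Fintype (I ⧸ J.subgroupOf I)]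
    (ρ : Representation K W U) (hρ : ∀ g ∈ J, ρ g = 1) (a : W) :
    LinearMap.trace K _ (frob I ρ a) = ((Fintype.card (I ⧸ J.subgroupOf I) : ℕ) : K)⁻¹ *
      ∑ x : I ⧸ J.subgroupOf I, LinearMap.trace K U (ρ (a * (x.out : I))) := by
  classical
  set n : K := ((Fintype.card (I ⧸ J.subgroupOf I) : ℕ) : K) with hn
  have hn0 : n ≠ 0 := by
    rw [hn]
    exact_mod_cast Fintype.card_ne_zero
  let P : U →ₗ[K] U := n⁻¹ • ∑ x : I ⧸ J.subgroupOf I, ρ (x.out : I)
  have hP : ∀ u, P u = n⁻¹ • ∑ x : I ⧸ J.subgroupOf I, ρ (x.out : I) u := by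
    intro u
    simp [P, LinearMap.smul_apply, LinearMap.sum_apply]
  have hout : ∀ (g : I) (x : I ⧸ J.subgroupOf I),
      ρ ((g * x.out : I) : W) = ρ (((g • x : I ⧸ J.subgroupOf I).out : I) : W) := by
    intro g x
    have h1 : ((g * x.out : I) : I ⧸ J.subgroupOf I) = (((g • x).out : I) : I ⧸ J.subgroupOf I) := by
      rw [QuotientGroup.out_eq']
      conv_rhs => rw [← QuotientGroup.out_eq' x]
      rfl
    have h2 := QuotientGroup.eq.1 h1
    rw [Subgroup.mem_subgroupOf] at h2
    have h3 := hρ _ h2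
    have h4 : (((g • x).out : I) : W) = ((g * x.out : I) : W) *
        (((g * x.out)⁻¹ * (g • x).out : I) : W) := by
      push_cast
      group
    rw [h4, map_mul, h3, mul_one]
  have hmem : ∀ u, P u ∈ inv I ρ := by
    intro u g hg
    rw [hP, map_smul, map_sum]
    congr 1
    have h1 : ∀ x : I ⧸ J.subgroupOf I, ρ g (ρ (x.out : I) u) =
        ρ ((((⟨g, hg⟩ : I) • x).out : I) : W) u := by
      intro x
      rw [← Module.End.mul_apply, ← map_mul, ← hout ⟨g, hg⟩ x]
      rfl
    rw [Finset.sum_congr rfl fun x _ => h1 x]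
    exact Fintype.sum_bijective _ (MulAction.bijective (⟨g, hg⟩ : I)) _ _ fun x => rfl
  have hfix : ∀ u ∈ inv I ρ, P u = u := by
    intro u hu
    rw [hP]
    have : ∀ x : I ⧸ J.subgroupOf I, ρ (x.out : I) u = u := fun x => hu _ (x.out : I).2
    rw [Finset.sum_congr rfl fun x _ => this x, Finset.sum_const, Finset.card_univ,
      ← Nat.cast_smul_eq_nsmul K, smul_smul, inv_mul_cancel₀ hn0, one_smul]
  let π : U →ₗ[K] inv I ρ := P.codRestrict _ hmem
  let i : inv I ρ →ₗ[K] U := (inv I ρ).subtype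
  have h1 : π ∘ₗ i = LinearMap.id := by
    ext u
    exact hfix u u.2
  have h2 : ρ a ∘ₗ i = i ∘ₗ frob I ρ a := by
    ext u
    rfl
  have h3 : i ∘ₗ π = P := by
    ext u
    rfl
  calc LinearMap.trace K _ (frob I ρ a)
      = LinearMap.trace K _ ((π ∘ₗ i) ∘ₗ frob I ρ a) := by rw [h1, LinearMap.id_comp]
    _ = LinearMap.trace K _ (π ∘ₗ (ρ a ∘ₗ i)) := by rw [LinearMap.comp_assoc, h2]
    _ = LinearMap.trace K _ ((ρ a ∘ₗ i) ∘ₗ π) := LinearMap.trace_comp_comm' _ _
    _ = LinearMap.trace K _ (ρ a ∘ₗ P) := by rw [LinearMap.comp_assoc, h3]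
    _ = _ := by
      have h4 : ρ a ∘ₗ P = n⁻¹ • ∑ x : I ⧸ J.subgroupOf I, ρ (a * (x.out : I)) := by
        ext u
        rw [LinearMap.comp_apply, hP, map_smul, map_sum, LinearMap.smul_apply, LinearMap.sum_apply]
        simp only [map_mul, Module.End.mul_apply]
      rw [h4, map_smul, map_sum, smul_eq_mul]

end

section

variable {Λ : Type} (K : Λ → Type) [∀ l, Field (K l)] [∀ l, CharZero (K l)]
  (V : Λ → Type) [∀ l, AddCommGroup (V l)] [∀ l, Module (K l) (V l)]
  [∀ l, FiniteDimensional (K l) (V l)] (f S : ∀ l, V l →ₗ[K l] V l)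

/-- Rational traces extend: if the characteristic polynomials of the invertible operators `f l` are
rational and independent of `l` and so are the traces of `S f, S f ^ 2, …`, then so is that of `S`. -/
theorem extend_trace (hf : ∀ l, LinearMap.det (f l) ≠ 0) (h : Indep K V f)
    (hS : ∀ n : ℕ, 1 ≤ n → ∃ t : ℚ, ∀ l, LinearMap.trace (K l) (V l) (S l * f l ^ n) =
      algebraMap ℚ (K l) t) :
    ∃ t : ℚ, ∀ l, LinearMap.trace (K l) (V l) (S l) = algebraMap ℚ (K l) t := by
  obtain ⟨P, hP⟩ := h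
  have hcoef : ∀ l, (revPoly (f l)).coeff (Module.finrank (K l) (V l)) ≠ 0 := by
    intro l
    have h1 : (revPoly (f l)).coeff (Module.finrank (K l) (V l)) = (f l).charpoly.coeff 0 := by
      rw [revPoly, coeff_reverse, LinearMap.charpoly_natDegree, revAt_le le_rfl, Nat.sub_self]
    rw [h1]
    intro h2
    have h3 := LinearMap.det_eq_sign_charpoly_coeff (f l)
    rw [h2, mul_zero] at h3
    exact hf l h3
  have hd : ∀ l, P.natDegree = Module.finrank (K l) (V l) := by
    intro l
    have h1 : (revPoly (f l)).natDegree = Module.finrank (K l) (V l) :=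
      le_antisymm (natDegree_le (f l)) (le_natDegree_of_ne_zero (hcoef l))
    rw [← h1, hP l, natDegree_map]
  have hCH : ∀ l, ∑ j ∈ Finset.range (P.natDegree + 1),
      (revPoly (f l)).coeff j • f l ^ (P.natDegree - j) = 0 := by
    intro l
    have h1 := LinearMap.aeval_self_charpoly (f l)
    rw [aeval_eq_sum_range, LinearMap.charpoly_natDegree, ← hd l] at h1
    rw [← h1, ← Finset.sum_range_reflect]
    refine Finset.sum_congr rfl fun j hj => ?_
    have hj' : j ≤ P.natDegree := Nat.lt_succ_iff.1 (Finset.mem_range.1 hj)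
    have e1 : P.natDegree + 1 - 1 - j = P.natDegree - j := by omega
    have e2 : P.natDegree - (P.natDegree - j) = j := by omega
    rw [e1, e2]
    congr 1
    rw [revPoly, coeff_reverse, LinearMap.charpoly_natDegree, ← hd l, revAt_le (by omega), e2]
  have hPd : ∀ _ : Λ, P.coeff P.natDegree ≠ 0 := by
    intro l h0
    apply hcoef l
    rw [hP l, coeff_map, ← hd l, h0, map_zero]
  have hS' : ∀ n : ℕ, ∃ t : ℚ, 1 ≤ n → ∀ l, LinearMap.trace (K l) (V l) (S l * f l ^ n) =
      algebraMap ℚ (K l) t := by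
    intro n
    by_cases hn : 1 ≤ n
    · obtain ⟨t, ht⟩ := hS n hn
      exact ⟨t, fun _ => ht⟩
    · exact ⟨0, fun h => absurd h hn⟩
  choose t ht using hS'
  refine ⟨-(P.coeff P.natDegree)⁻¹ * ∑ j ∈ Finset.range P.natDegree,
    P.coeff j * t (P.natDegree - j), fun l => ?_⟩
  have h1 : LinearMap.trace (K l) (V l) (S l * ∑ j ∈ Finset.range (P.natDegree + 1),
      (revPoly (f l)).coeff j • f l ^ (P.natDegree - j)) = 0 := by
    rw [hCH l, mul_zero, map_zero]
  rw [Finset.mul_sum, map_sum, Finset.sum_range_succ] at h1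
  have h2 : ∀ j ∈ Finset.range P.natDegree, LinearMap.trace (K l) (V l)
      (S l * (revPoly (f l)).coeff j • f l ^ (P.natDegree - j)) =
      algebraMap ℚ (K l) (P.coeff j * t (P.natDegree - j)) := by
    intro j hj
    rw [mul_smul_comm, map_smul, smul_eq_mul, ht _ (by have := Finset.mem_range.1 hj; omega) l,
      hP l, coeff_map, map_mul]
  rw [Finset.sum_congr rfl h2, Nat.sub_self, pow_zero, mul_smul_comm, mul_one, map_smul,
    smul_eq_mul, hP l, coeff_map, ← map_sum] at h1
  have h3 : algebraMap ℚ (K l) (P.coeff P.natDegree) ≠ 0 := by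
    rw [_root_.map_ne_zero]
    exact hPd l
  rw [map_mul, map_neg, map_inv₀]
  field_simp
  linear_combination h1

end

end Pool.Agent.Q56.WD
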