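import Pool.Agent.Q56.WD.Avg

/-!
# Weil–Deligne representations at `p` attached to motives: definitions
-/

set_option autoImplicit false

open Polynomial

namespace Pool.Agent.Q56.WD

open Pool.Agent.Q187.IL (revPoly)

/-- The Weil group at `p`. -/
structure WeilGroup where
  /-- the number of elements of the residue field, `p` -/
  q : ℕ
  q_ne : q ≠ 0
  /-- the Weil group at `p` -/
  W : Type
  [group : Group W]
  [top : TopologicalSpace W]
  [topGroup : IsTopologicalGroup W]
  /-- the valuation, `1` on the geometric Frobenius elements; the kernel is the inertia group -/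
  v : W →* Multiplicative ℤ
  /-- a geometric Frobenius element -/
  Φ : W
  hΦ : vl v Φ = 1
  compact : IsCompact (v.ker : Set W)

attribute [instance] WeilGroup.group WeilGroup.top WeilGroup.topGroup

/-- The number `q ^ n` in `K`. -/
noncomputable def WeilGroup.qz (G : WeilGroup) (K : Type) [Field K] (n : ℤ) : K := (G.q : K) ^ n

/-- The valuation as an integer. -/
def WeilGroup.val (G : WeilGroup) (w : G.W) : ℤ := vl G.v w

/-- A Weil–Deligne representation over `K`: a finite dimensional representation `r` of the Weil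
group and a nilpotent operator `N` with `N r(w) = q ^ v(w) r(w) N`. -/
structure WDRep (G : WeilGroup) (K : Type) [Field K] where
  /-- the space -/
  V : Type
  [acg : AddCommGroup V]
  [mod : Module K V]
  [fin : FiniteDimensional K V]
  /-- the action of the Weil group -/
  r : Representation K G.W V
  /-- the monodromy operator -/
  N : V →ₗ[K] V
  nil : IsNilpotent N
  comm : ∀ w x, N (r w x) = G.qz K (G.val w) • r w (N x)

attribute [instance] WDRep.acg WDRep.mod WDRep.fin

section

variable {G : WeilGroup} {K : Type} [Field K]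

/-- The action of `w` on `x`. -/
def WDRep.act (X : WDRep G K) (w : G.W) (x : X.V) : X.V := X.r w x

/-- The monodromy operator on `x`. -/
def WDRep.mon (X : WDRep G K) (x : X.V) : X.V := X.N x

lemma WDRep.pow_comm (X : WDRep G K) (m : ℕ) (w : G.W) (x : X.V) :
    (X.N ^ m) (X.r w x) = (G.qz K (G.val w)) ^ m • X.r w ((X.N ^ m) x) := by
  induction m generalizing x with
  | zero => simp
  | succ m ih =>
    rw [pow_succ, Module.End.mul_apply, X.comm, map_smul, ih, Module.End.mul_apply, smul_smul,
      pow_succ, mul_comm]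

/-- The kernel of `N ^ m`. -/
def WDRep.ker (X : WDRep G K) (m : ℕ) : Submodule K X.V := LinearMap.ker (X.N ^ m)

lemma WDRep.mem_ker (X : WDRep G K) {m : ℕ} {x : X.V} : x ∈ X.ker m ↔ (X.N ^ m) x = 0 :=
  LinearMap.mem_ker

lemma WDRep.ker_stable (X : WDRep G K) (m : ℕ) (w : G.W) :
    ∀ x ∈ X.ker m, X.r w x ∈ X.ker m := by
  intro x hx
  rw [X.mem_ker] at hx ⊢
  rw [X.pow_comm, hx, map_zero, smul_zero]

/-- The invariants of inertia in the kernel of `N`. -/
def WDRep.inert (X : WDRep G K) : Submodule K X.V where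
  carrier := {x | X.mon x = 0 ∧ ∀ g, G.val g = 0 → X.act g x = x}
  add_mem' := by
    rintro a b ⟨ha, ha'⟩ ⟨hb, hb'⟩
    refine ⟨?_, fun g hg => ?_⟩
    · show X.N (a + b) = 0
      rw [map_add]
      show X.mon a + X.mon b = 0
      rw [ha, hb, add_zero]
    · show X.r g (a + b) = a + b
      rw [map_add]
      show X.act g a + X.act g b = a + b
      rw [ha' g hg, hb' g hg]
  zero_mem' := ⟨map_zero _, fun _ _ => map_zero _⟩
  smul_mem' := by
    rintro c a ⟨ha, ha'⟩
    refine ⟨?_, fun g hg => ?_⟩
    · show X.N (c • a) = 0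
      rw [map_smul]
      show c • X.mon a = 0
      rw [ha, smul_zero]
    · show X.r g (c • a) = c • a
      rw [map_smul]
      show c • X.act g a = c • a
      rw [ha' g hg]

lemma WDRep.inert_stable (X : WDRep G K) (w : G.W) : ∀ x ∈ X.inert, X.r w x ∈ X.inert := by
  rintro x ⟨hx, hx'⟩
  refine ⟨?_, fun g hg => ?_⟩
  · show X.N (X.r w x) = 0
    rw [X.comm]
    show _ • X.r w (X.mon x) = 0
    rw [hx, map_zero, smul_zero]
  · show X.r g (X.r w x) = X.r w x
    have h1 : G.val (w⁻¹ * g * w) = 0 := by
      have : G.val g = 0 := hg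
      unfold WeilGroup.val at this ⊢
      rw [vl_mul, vl_mul, vl_inv, this]
      ring
    have h2 : g * w = w * (w⁻¹ * g * w) := by group
    rw [← Module.End.mul_apply, ← map_mul, h2, map_mul, Module.End.mul_apply]
    exact congrArg _ (hx' _ h1)

/-- The space `ker N ^ m`. -/
def WDRep.Ker (X : WDRep G K) (m : ℕ) : Type := X.ker m

instance WDRep.kerGroup (X : WDRep G K) (m : ℕ) : AddCommGroup (X.Ker m) :=
  Submodule.addCommGroup (X.ker m)

instance WDRep.kerModule (X : WDRep G K) (m : ℕ) : Module K (X.Ker m) :=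
  Submodule.module (X.ker m)

instance WDRep.kerFin (X : WDRep G K) (m : ℕ) : FiniteDimensional K (X.Ker m) :=
  FiniteDimensional.finiteDimensional_submodule (X.ker m)

/-- The space of the invariants of inertia in the kernel of `N`. -/
def WDRep.Inert (X : WDRep G K) : Type := X.inert

instance WDRep.inertGroup (X : WDRep G K) : AddCommGroup X.Inert :=
  Submodule.addCommGroup X.inert

instance WDRep.inertModule (X : WDRep G K) : Module K X.Inert :=
  Submodule.module X.inert

instance WDRep.inertFin (X : WDRep G K) : FiniteDimensional K X.Inert :=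
  FiniteDimensional.finiteDimensional_submodule X.inert

/-- The action of `w` on the kernel of `N ^ m`. -/
noncomputable def WDRep.kerMap (X : WDRep G K) (m : ℕ) (w : G.W) : X.Ker m →ₗ[K] X.Ker m :=
  (X.r w).restrict (X.ker_stable m w)

/-- The action of `w` on the invariants of inertia in the kernel of `N`. -/
noncomputable def WDRep.inertMap (X : WDRep G K) (w : G.W) : X.Inert →ₗ[K] X.Inert :=
  (X.r w).restrict (X.inert_stable w)

/-- `det (1 - T w)` on the kernel of `N ^ m`. -/
noncomputable def WDRep.poly (X : WDRep G K) (m : ℕ) (w : G.W) : K[X] := revPoly (X.kerMap m w)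

/-- `det (1 - T Φ)` on the invariants of inertia in the kernel of `N`: the Euler factor. -/
noncomputable def WDRep.factor (X : WDRep G K) : K[X] := revPoly (X.inertMap G.Φ)

/-- `e` identifies `X'` with the tensor product of `X` with the representation on `K^(m+1)` with
basis `e_0, …, e_m`, `N e_j = e_(j+1)`, `w e_j = q ^ (v(w) (m - j)) e_j`: that of the `m`-th
symmetric power of `H^1(E)`, `E` an elliptic curve with split multiplicative reduction. -/
def IsSymVia (X' X : WDRep G K) (m : ℕ) (e : X'.V → Fin (m + 1) → X.V) : Prop :=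
  (∀ w x j, e (X'.act w x) j = G.qz K (G.val w * ((m : ℤ) - (j : ℕ))) • X.act w (e x j)) ∧
  (∀ x, e (X'.mon x) 0 = X.mon (e x 0)) ∧
  ∀ x (j : Fin m), e (X'.mon x) j.succ = X.mon (e x j.succ) + e x j.castSucc

/-- `X'` is the tensor product of `X` with the representation of the `m`-th symmetric power. -/
def IsSymOf (X' X : WDRep G K) (m : ℕ) : Prop :=
  ∃ e : X'.V ≃ₗ[K] (Fin (m + 1) → X.V), IsSymVia X' X m e

/-- `e` identifies `X'` with the tensor product of `X` with the permutation representation on
`W / H`. -/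
def IsPermVia (X' X : WDRep G K) (H : Subgroup G.W) (e : X'.V → (G.W ⧸ H) → X.V) : Prop :=
  (∀ w x y, e (X'.act w x) y = X.act w (e x (w⁻¹ • y))) ∧ ∀ x y, e (X'.mon x) y = X.mon (e x y)

/-- `X'` is the tensor product of `X` with the permutation representation on `W / H`. -/
def IsPermOf (X' X : WDRep G K) (H : Subgroup G.W) : Prop :=
  ∃ e : X'.V ≃ₗ[K] (G.W ⧸ H → X.V), IsPermVia X' X H e

/-- `w` is in the inertia group and acts trivially. -/
def WDRep.Trivial (X : WDRep G K) (w : G.W) : Prop := G.val w = 0 ∧ ∀ x, X.act w x = x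

end

/-- Motives and the Weil–Deligne representations at `p` attached to their `ℓ`-adic cohomology. -/
structure Realisations where
  /-- the Weil group at `p` -/
  G : WeilGroup
  /-- the motives -/
  Mot : Type
  /-- the primes `ℓ ≠ p` -/
  Pr : Type
  /-- the fields `ℚ_ℓ` -/
  K : Pr → Type
  [field : ∀ l, Field (K l)]
  [char : ∀ l, CharZero (K l)]
  /-- the Weil–Deligne representation of `V^i_ℓ(M)` -/
  rep : ∀ (l : Pr) (_ : Mot) (_ : ℤ), WDRep G (K l)

attribute [instance] Realisations.field Realisations.char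

/-- Realisations with the known properties used here. -/
structure Data extends Realisations where
  smooth : ∀ l M i, IsOpen {w : G.W | (rep l M i).Trivial w}
  /-- `M ⊗ Sym^m h^1(E)`, `E` an elliptic curve with split multiplicative reduction at `p` -/
  sym : Mot → ℕ → Mot
  isSym : ∀ l M i m, IsSymOf (rep l (sym M m) (i + m)) (rep l M i) m
  /-- `M ⊗ h(F)`, `F` a number field with one place above `p`, `H` the subgroup of the completion -/
  art : Mot → Subgroup G.W → Mot
  isArt : ∀ l M i (H : Subgroup G.W), IsOpen (H : Set G.W) → H.FiniteIndex →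
    IsPermOf (rep l (art M H) i) (rep l M i) H

namespace Data

variable (D : Data)

/-- The assertion of the question for `M`, `i` (at `p`): the Euler factors have rational
coefficients and do not depend on `ℓ`. -/
def Independent (M : D.Mot) (i : ℤ) : Prop :=
  ∃ P : ℚ[X], ∀ l, (D.rep l M i).factor = P.map (algebraMap ℚ (D.K l))

/-- For all `w` in the Weil group the polynomials `det (1 - T w | ker N ^ m)` for `M` in degree `i`
have rational coefficients and do not depend on `ℓ`. -/
def Level (M : D.Mot) (i : ℤ) (m : ℕ) : Prop :=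
  ∀ w : D.G.W, ∃ P : ℚ[X], ∀ l, (D.rep l M i).poly m w = P.map (algebraMap ℚ (D.K l))

end Data

/-! ## Internal: the corresponding representations -/

section

variable {G : WeilGroup} {K : Type} [Field K]

/-- The vector. -/
def WDRep.vec (X : WDRep G K) {m : ℕ} (x : X.Ker m) : X.V := Subtype.val (p := (· ∈ X.ker m)) x

lemma WDRep.vec_inj (X : WDRep G K) {m : ℕ} {x y : X.Ker m} (h : X.vec x = X.vec y) : x = y :=
  Subtype.ext h

lemma WDRep.vec_mem (X : WDRep G K) {m : ℕ} (x : X.Ker m) : X.vec x ∈ X.ker m :=
  Subtype.property (p := (· ∈ X.ker m)) x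

/-- An element of the kernel. -/
def WDRep.mk' (X : WDRep G K) {m : ℕ} (x : X.V) (h : x ∈ X.ker m) : X.Ker m :=
  Subtype.mk (p := (· ∈ X.ker m)) x h

@[simp] lemma WDRep.vec_mk' (X : WDRep G K) {m : ℕ} (x : X.V) (h : x ∈ X.ker m) :
    X.vec (X.mk' x h) = x := rfl

@[simp] lemma WDRep.vec_add (X : WDRep G K) {m : ℕ} (x y : X.Ker m) :
    X.vec (x + y) = X.vec x + X.vec y := rfl

@[simp] lemma WDRep.vec_zero (X : WDRep G K) {m : ℕ} : X.vec (0 : X.Ker m) = 0 := rfl

@[simp] lemma WDRep.vec_smul (X : WDRep G K) {m : ℕ} (c : K) (x : X.Ker m) :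
    X.vec (c • x) = c • X.vec x := rfl

lemma WDRep.vec_kerMap (X : WDRep G K) (m : ℕ) (w : G.W) (x : X.Ker m) :
    X.vec (X.kerMap m w x) = X.r w (X.vec x) := rfl

lemma WDRep.kerMap_one (X : WDRep G K) (m : ℕ) : X.kerMap m 1 = 1 := by
  refine LinearMap.ext fun x => X.vec_inj ?_
  rw [X.vec_kerMap, map_one]
  rfl

lemma WDRep.kerMap_mul (X : WDRep G K) (m : ℕ) (a b : G.W) :
    X.kerMap m (a * b) = X.kerMap m a * X.kerMap m b := by
  refine LinearMap.ext fun x => X.vec_inj ?_
  rw [X.vec_kerMap, map_mul]
  rfl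

/-- The action of `W` on the kernel of `N ^ m`. -/
noncomputable def WDRep.kerRep (X : WDRep G K) (m : ℕ) : Representation K G.W (X.Ker m) where
  toFun := X.kerMap m
  map_one' := X.kerMap_one m
  map_mul' := X.kerMap_mul m

lemma WDRep.vec_kerRep (X : WDRep G K) (m : ℕ) (w : G.W) (x : X.Ker m) :
    X.vec (X.kerRep m w x) = X.r w (X.vec x) := rfl

end

end Pool.Agent.Q56.WD
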