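import Pool.Agent.Q56.WD.Rep

/-!
# The Frobenius trace on the invariants of inertia of an induced module
-/

set_option autoImplicit false

open Polynomial

namespace Pool.Agent.Q56.WD

open Pool.Agent.Q187.IL (revPoly Indep IndepTrace indep_iff natDegree_le)

section

variable {W K U : Type} [Group W] [Field K] [AddCommGroup U] [Module K U]
  (v : W →* Multiplicative ℤ)

/-- The value of `v` as an integer. -/
abbrev vl (w : W) : ℤ := (v w).toAdd

lemma vl_mul (a b : W) : vl v (a * b) = vl v a + vl v b := by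
  simp [vl]

lemma vl_inv (a : W) : vl v a⁻¹ = - vl v a := by
  simp [vl]

lemma vl_one : vl v 1 = 0 := by
  simp [vl]

lemma vl_zpow (a : W) (n : ℤ) : vl v (a ^ n) = n * vl v a := by
  simp [vl]

lemma vl_pow (a : W) (n : ℕ) : vl v (a ^ n) = n * vl v a := by
  simp [vl]

lemma mem_ker_vl (a : W) : a ∈ v.ker ↔ vl v a = 0 := by
  rw [MonoidHom.mem_ker]
  constructor
  · intro h
    simp [vl, h]
  · intro h
    exact Multiplicative.toAdd.injective (by simpa [vl] using h)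

/-- The value of the function attached to `u` at `y`. -/
noncomputable def fu (ρ : Representation K W U) (v : W →* Multiplicative ℤ) (Φ w : W) (f : ℕ)
    (hf : 0 < f) (u : Fin f → U) (y : W) : U :=
  ρ (y * w ^ (-(vl v y / f)) * (Φ ^ (vl v y % f))⁻¹)
    (u ⟨(vl v y % f).toNat, by
      have hf' : (0 : ℤ) < f := by exact_mod_cast hf
      have h1 : 0 ≤ vl v y % f := Int.emod_nonneg _ hf'.ne'
      have h2 : vl v y % f < f := Int.emod_lt_of_pos _ hf'
      omega⟩)

variable {v} {Φ : W} (hΦ : vl v Φ = 1) {J : Subgroup W} [J.Normal] (hJ : J ≤ v.ker)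
  {w : W} {f : ℕ} (hf : 0 < f) (hw : vl v w = f)

include hΦ hf hw in
/-- Every element is `g Φ ^ j w ^ b` with `g` in the inertia group and `0 ≤ j < f`. -/
lemma exists_form (y : W) : ∃ (g : W) (j : Fin f) (b : ℤ), vl v g = 0 ∧ y = g * Φ ^ (j : ℕ) * w ^ b := by
  have hf' : (0 : ℤ) < f := by exact_mod_cast hf
  have h1 : 0 ≤ vl v y % f := Int.emod_nonneg _ hf'.ne'
  have h2 : vl v y % f < f := Int.emod_lt_of_pos _ hf'
  obtain ⟨j, hj⟩ := Int.eq_ofNat_of_zero_le h1
  have hjf : j < f := by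
    rw [hj] at h2
    exact_mod_cast h2
  refine ⟨y * w ^ (-(vl v y / f)) * (Φ ^ j)⁻¹, ⟨j, hjf⟩, vl v y / f, ?_, ?_⟩
  · rw [vl_mul, vl_mul, vl_zpow, vl_inv, vl_pow, hw, hΦ]
    have h3 := Int.mul_ediv_add_emod (vl v y) f
    rw [hj] at h3
    have h4 : ((j : ℕ) : ℤ) = j := rfl
    have : (Int.ofNat j : ℤ) = (j : ℤ) := rfl
    linarith [mul_comm (f : ℤ) (vl v y / f)]
  · group

lemma fu_congr (ρ : Representation K W U) (u : Fin f → U) {y y' : W} (h : vl v y = vl v y')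
    (h2 : ρ (y * w ^ (-(vl v y / f)) * (Φ ^ (vl v y % f))⁻¹) =
      ρ (y' * w ^ (-(vl v y / f)) * (Φ ^ (vl v y % f))⁻¹)) :
    fu ρ v Φ w f hf u y = fu ρ v Φ w f hf u y' := by
  unfold fu
  rw [h2]
  simp only [h]

include hJ in
lemma fu_mul_J (ρ : Representation K W U) (hρ : ∀ g ∈ J, ρ g = 1) (u : Fin f → U) (y h : W)
    (hh : h ∈ J) : fu ρ v Φ w f hf u (y * h) = fu ρ v Φ w f hf u y := by
  have h0 : vl v h = 0 := (mem_ker_vl v h).1 (hJ hh)
  have h1 : vl v (y * h) = vl v y := by rw [vl_mul, h0, add_zero]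
  refine fu_congr hf ρ u h1 ?_
  rw [h1]
  have h2 : y * h * w ^ (-(vl v y / f)) * (Φ ^ (vl v y % f))⁻¹ =
      (y * h * y⁻¹) * (y * w ^ (-(vl v y / f)) * (Φ ^ (vl v y % f))⁻¹) := by group
  rw [h2, map_mul, hρ _ (‹J.Normal›.conj_mem h hh y), one_mul]

include hw in
lemma fu_mul_w (ρ : Representation K W U) (u : Fin f → U) (y : W) :
    fu ρ v Φ w f hf u (y * w) = fu ρ v Φ w f hf u y := by
  have hf' : (f : ℤ) ≠ 0 := by exact_mod_cast hf.ne'
  have h1 : vl v (y * w) = vl v y + f := by rw [vl_mul, hw]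
  have h2 : vl v (y * w) / f = vl v y / f + 1 := by
    rw [h1, Int.add_ediv_of_dvd_right (dvd_refl _), Int.ediv_self hf']
  have h3 : vl v (y * w) % f = vl v y % f := by
    rw [h1, Int.add_emod_right]
  unfold fu
  rw [h2]
  simp only [h3]
  have h4 : y * w * w ^ (-(vl v y / f + 1)) = y * w ^ (-(vl v y / f)) := by
    rw [mul_assoc, ← zpow_one_add]
    congr 2
    ring
  rw [h4]

lemma fu_mul_I (ρ : Representation K W U) (u : Fin f → U) (y g : W) (hg : vl v g = 0) :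
    fu ρ v Φ w f hf u (g * y) = ρ g (fu ρ v Φ w f hf u y) := by
  have h1 : vl v (g * y) = vl v y := by rw [vl_mul, hg, zero_add]
  unfold fu
  simp only [h1]
  rw [mul_assoc g, mul_assoc g, map_mul, Module.End.mul_apply]

include hJ hw in
/-- `fu` depends only on the coset of `H = J ⟨w⟩`. -/
lemma fu_coset (ρ : Representation K W U) (hρ : ∀ g ∈ J, ρ g = 1) (u : Fin f → U) (y h : W)
    (hh : h ∈ J ⊔ Subgroup.zpowers w) : fu ρ v Φ w f hf u (y * h) = fu ρ v Φ w f hf u y := by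
  let S : Subgroup W :=
    { carrier := {h | ∀ y, fu ρ v Φ w f hf u (y * h) = fu ρ v Φ w f hf u y}
      mul_mem' := by
        intro a b ha hb y
        rw [← mul_assoc, hb, ha]
      one_mem' := by intro y; rw [mul_one]
      inv_mem' := by
        intro a ha y
        have := ha (y * a⁻¹)
        rw [inv_mul_cancel_right] at this
        exact this.symm }
  have h1 : J ≤ S := fun g hg y => fu_mul_J hJ hf ρ hρ u y g hg
  have h2 : Subgroup.zpowers w ≤ S := by
    rw [Subgroup.zpowers_le]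
    exact fun y => fu_mul_w hf hw ρ u y
  exact (sup_le h1 h2) hh y

variable [v.ker.Normal]

include hΦ hJ hf hw in
/-- The trace of `Φ ^ f` on the invariants of inertia in the functions on `W / J ⟨w⟩` with values in
`U` is `f` times the trace of `w` on `U`. -/
theorem trace_ind [FiniteDimensional K U] (ρ : Representation K W U) (hρ : ∀ g ∈ J, ρ g = 1) :
    LinearMap.trace K _ (frob v.ker (permRep ρ (J ⊔ Subgroup.zpowers w)) (Φ ^ f)) =
      (f : K) * LinearMap.trace K _ (ρ w) := by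
  classical
  set H := J ⊔ Subgroup.zpowers w with hH
  have hwH : w ∈ H := (le_sup_right : Subgroup.zpowers w ≤ H) (Subgroup.mem_zpowers w)
  -- evaluation
  let ev : inv v.ker (permRep ρ H) →ₗ[K] (Fin f → U) :=
    { toFun := fun F j => (F : W ⧸ H → U) (((Φ ^ (j : ℕ) : W) : W ⧸ H))
      map_add' := fun F G => rfl
      map_smul' := fun c F => rfl }
  have hev : ∀ F j, ev F j = (F : W ⧸ H → U) (((Φ ^ (j : ℕ) : W) : W ⧸ H)) := fun _ _ => rfl
  have hinv : ∀ (F : inv v.ker (permRep ρ H)) (g : W), vl v g = 0 → ∀ x : W ⧸ H,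
      (F : W ⧸ H → U) (g • x) = ρ g ((F : W ⧸ H → U) x) := by
    intro F g hg x
    have h1 := F.2 g ((mem_ker_vl v g).2 hg)
    have h2 := congrFun h1 (g • x)
    rw [permRep_apply, inv_smul_smul] at h2
    exact h2.symm
  have hrep : ∀ x : W ⧸ H, ∃ (g : W) (j : Fin f), vl v g = 0 ∧ x = g • (((Φ ^ (j : ℕ) : W) : W ⧸ H)) := by
    intro x
    obtain ⟨y, rfl⟩ := QuotientGroup.mk_surjective x
    obtain ⟨g, j, b, hg, hy⟩ := exists_form hΦ hf hw y
    refine ⟨g, j, hg, ?_⟩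
    rw [MulAction.Quotient.smul_coe, smul_eq_mul, hy]
    rw [QuotientGroup.eq]
    have : (g * Φ ^ (j : ℕ) * w ^ b)⁻¹ * (g * Φ ^ (j : ℕ)) = w ^ (-b) := by group
    rw [this]
    exact H.zpow_mem hwH _
  have hinj : Function.Injective ev := by
    rw [injective_iff_map_eq_zero]
    intro F hF
    ext x
    obtain ⟨g, j, hg, rfl⟩ := hrep x
    rw [hinv F g hg, ← hev, hF]
    simp
  have hsurj : Function.Surjective ev := by
    intro u
    let F0 : W ⧸ H → U := fun x => Quotient.liftOn' x (fun y => fu ρ v Φ w f hf u y) (by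
      intro a b hab
      have hab' : a⁻¹ * b ∈ H := QuotientGroup.leftRel_apply.1 hab
      have := fu_coset (Φ := Φ) hJ hf hw ρ hρ u a (a⁻¹ * b) hab'
      rw [mul_inv_cancel_left] at this
      exact this.symm)
    have hF0 : ∀ y : W, F0 (y : W ⧸ H) = fu ρ v Φ w f hf u y := fun y => rfl
    have hF1 : F0 ∈ inv v.ker (permRep ρ H) := by
      intro g hg
      ext x
      obtain ⟨y, rfl⟩ := QuotientGroup.mk_surjective x
      rw [permRep_apply, MulAction.Quotient.smul_coe, smul_eq_mul, hF0, hF0]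
      have hg' : vl v g⁻¹ = 0 := by rw [vl_inv, (mem_ker_vl v g).1 hg, neg_zero]
      rw [fu_mul_I hf ρ u y g⁻¹ hg', ← Module.End.mul_apply, ← map_mul, mul_inv_cancel, map_one,
        Module.End.one_apply]
    refine ⟨⟨F0, hF1⟩, ?_⟩
    ext j
    rw [hev]
    change F0 (((Φ ^ (j : ℕ) : W) : W ⧸ H)) = u j
    rw [hF0]
    have h1 : vl v (Φ ^ (j : ℕ)) = (j : ℕ) := by rw [vl_pow, hΦ, mul_one]
    have h2 : ((j : ℕ) : ℤ) / (f : ℤ) = 0 := by
      apply Int.ediv_eq_zero_of_lt (by positivity)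
      exact_mod_cast j.2
    have h3 : ((j : ℕ) : ℤ) % (f : ℤ) = (j : ℕ) := by
      apply Int.emod_eq_of_lt (by positivity)
      exact_mod_cast j.2
    unfold fu
    simp only [h1, h2, h3, Int.toNat_natCast, neg_zero, zpow_zero, mul_one, zpow_natCast,
      mul_inv_cancel, map_one, Module.End.one_apply]
  let e : inv v.ker (permRep ρ H) ≃ₗ[K] (Fin f → U) := LinearEquiv.ofBijective ev ⟨hinj, hsurj⟩
  have he : ∀ F j, e F j = (F : W ⧸ H → U) (((Φ ^ (j : ℕ) : W) : W ⧸ H)) := fun _ _ => rfl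
  -- the operator
  let T : (Fin f → U) →ₗ[K] (Fin f → U) := e.conj (frob v.ker (permRep ρ H) (Φ ^ f))
  have hT : ∀ u j, T u j = (ρ (Φ ^ (j : ℕ) * w * (Φ ^ (j : ℕ))⁻¹)) (u (id j)) := by
    intro u j
    obtain ⟨F, rfl⟩ := e.surjective u
    show e.conj (frob v.ker (permRep ρ H) (Φ ^ f)) (e F) j = _
    rw [LinearEquiv.conj_apply_apply, LinearEquiv.symm_apply_apply, he, id, he, frob_coe,
      permRep_apply, MulAction.Quotient.smul_coe, smul_eq_mul]
    have h1 : ((((Φ ^ f)⁻¹ * Φ ^ (j : ℕ) : W)) : W ⧸ H) =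
        ((Φ ^ f)⁻¹ * Φ ^ (j : ℕ) * w * (Φ ^ (j : ℕ))⁻¹) • (((Φ ^ (j : ℕ) : W)) : W ⧸ H) := by
      rw [MulAction.Quotient.smul_coe, smul_eq_mul, QuotientGroup.eq]
      have : ((Φ ^ f)⁻¹ * Φ ^ (j : ℕ))⁻¹ * ((Φ ^ f)⁻¹ * Φ ^ (j : ℕ) * w * (Φ ^ (j : ℕ))⁻¹ *
          Φ ^ (j : ℕ)) = w := by group
      rw [this]
      exact hwH
    have h2 : vl v ((Φ ^ f)⁻¹ * Φ ^ (j : ℕ) * w * (Φ ^ (j : ℕ))⁻¹) = 0 := by
      rw [vl_mul, vl_mul, vl_mul, vl_inv, vl_inv, vl_pow, vl_pow, hΦ, hw]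
      ring
    rw [h1, hinv F _ h2, ← Module.End.mul_apply, ← map_mul]
    congr 2
    group
  have h1 : LinearMap.trace K _ (frob v.ker (permRep ρ H) (Φ ^ f)) = LinearMap.trace K _ T :=
    (LinearMap.trace_conj' _ e).symm
  rw [h1, trace_twisted (fun j : Fin f => ρ (Φ ^ (j : ℕ) * w * (Φ ^ (j : ℕ))⁻¹)) id T hT]
  simp only [id, if_true]
  have h2 : ∀ j : Fin f, LinearMap.trace K U (ρ (Φ ^ (j : ℕ) * w * (Φ ^ (j : ℕ))⁻¹)) =
      LinearMap.trace K U (ρ w) := by
    intro j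
    rw [map_mul, LinearMap.trace_mul_comm, ← map_mul]
    congr 2
    group
  rw [Finset.sum_congr rfl fun j _ => h2 j, Finset.sum_const, Finset.card_univ, Fintype.card_fin,
    nsmul_eq_mul]

end

end Pool.Agent.Q56.WD
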