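import Pool.Agent.Q56.WD.Defs

/-!
# The Euler factors of all motives determine the Weil–Deligne representations
-/

set_option autoImplicit false
set_option linter.style.haveILetI false

open Polynomial

namespace Pool.Agent.Q56.WD

open Pool.Agent.Q187.IL (revPoly Indep IndepTrace indep_iff natDegree_le)

lemma neg_pow_or {R : Type} [Ring R] (a : R) (n : ℕ) : (-a) ^ n = a ^ n ∨ (-a) ^ n = -a ^ n := by
  rcases Nat.even_or_odd n with h | h
  · exact Or.inl (h.neg_pow a)
  · exact Or.inr (h.neg_pow a)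

section

variable {G : WeilGroup} {K : Type} [Field K]

lemma ker_one (X : WDRep G K) (x : X.Ker 1) : X.N (X.vec x) = 0 := by
  have h := X.vec_mem x
  rwa [WDRep.mem_ker, pow_one] at h

lemma ker_zero (X : WDRep G K) (x : X.Ker 0) : x = 0 := by
  have h := X.vec_mem x
  rw [WDRep.mem_ker, pow_zero, Module.End.one_apply] at h
  exact X.vec_inj h

lemma mem_ker_one (X : WDRep G K) {x : X.V} (h : X.N x = 0) : x ∈ X.ker 1 := by
  rwa [WDRep.mem_ker, pow_one]

/-- The kernel of `N` on the twist by the `m`-th symmetric power is the kernel of `N ^ (m + 1)`. -/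
lemma sym_equiv {X' X : WDRep G K} {m : ℕ} (h : IsSymOf X' X m) :
    ∃ e : X'.Ker 1 ≃ₗ[K] X.Ker (m + 1), ∀ w x, e (X'.kerRep 1 w x) = X.kerRep (m + 1) w (e x) := by
  obtain ⟨e, h1, h2, h3⟩ := h
  replace h1 : ∀ w x j, e (X'.r w x) j = G.qz K (G.val w * ((m : ℤ) - (j : ℕ))) • X.r w (e x j) :=
    h1
  replace h2 : ∀ x, e (X'.N x) 0 = X.N (e x 0) := h2
  replace h3 : ∀ x (j : Fin m), e (X'.N x) j.succ = X.N (e x j.succ) + e x j.castSucc := h3
  have hpow : ∀ x : X'.Ker 1, ∀ j : Fin (m + 1),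
      e (X'.vec x) j = ((-X.N) ^ (m - (j : ℕ))) (e (X'.vec x) (Fin.last m)) := by
    intro x j
    have hx := ker_one X' x
    induction j using Fin.reverseInduction with
    | last => simp
    | cast j ih =>
      have h4 := h3 (X'.vec x) j
      rw [hx, map_zero, Pi.zero_apply] at h4
      have h5 : e (X'.vec x) j.castSucc = (-X.N) (e (X'.vec x) j.succ) := by
        rw [LinearMap.neg_apply]
        exact (neg_eq_of_add_eq_zero_right h4.symm).symm
      rw [h5, ih, ← Module.End.mul_apply, ← pow_succ']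
      congr 2
      simp only [Fin.val_succ, Fin.val_castSucc]
      have := j.2
      omega
  have hker : ∀ x : X'.Ker 1, e (X'.vec x) (Fin.last m) ∈ X.ker (m + 1) := by
    intro x
    have h4 := hpow x 0
    have h5 := h2 (X'.vec x)
    have hx := ker_one X' x
    rw [hx, map_zero, Pi.zero_apply, h4] at h5
    have h6 : ((-X.N) ^ (m + 1)) (e (X'.vec x) (Fin.last m)) = 0 := by
      rw [pow_succ', Module.End.mul_apply, LinearMap.neg_apply]
      have : (m - ((0 : Fin (m + 1)) : ℕ)) = m := by simp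
      rw [this] at h5
      rw [← h5, neg_zero]
    rw [WDRep.mem_ker]
    rcases neg_pow_or X.N (m + 1) with h7 | h7
    · rw [h7] at h6
      exact h6
    · rw [h7, LinearMap.neg_apply, neg_eq_zero] at h6
      exact h6
  let E : X'.Ker 1 →ₗ[K] X.Ker (m + 1) :=
    { toFun := fun x => X.mk' (e (X'.vec x) (Fin.last m)) (hker x)
      map_add' := fun x y => X.vec_inj (by simp)
      map_smul' := fun c x => X.vec_inj (by simp) }
  have hE : ∀ x, X.vec (E x) = e (X'.vec x) (Fin.last m) := fun _ => rfl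
  have hinj : Function.Injective E := by
    rw [injective_iff_map_eq_zero]
    intro x hx
    have h4 : e (X'.vec x) = 0 := by
      ext j
      rw [hpow x j, ← hE, hx]
      simp
    refine X'.vec_inj ?_
    rw [LinearEquiv.map_eq_zero_iff] at h4
    exact h4
  have hsurj : Function.Surjective E := by
    intro y
    let F : Fin (m + 1) → X.V := fun j => ((-X.N) ^ (m - (j : ℕ))) (X.vec y)
    have hy : ((-X.N) ^ (m + 1)) (X.vec y) = 0 := by
      have h4 : (X.N ^ (m + 1)) (X.vec y) = 0 := X.mem_ker.1 (X.vec_mem y)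
      rcases neg_pow_or X.N (m + 1) with h7 | h7
      · rw [h7, h4]
      · rw [h7, LinearMap.neg_apply, h4, neg_zero]
    have hx : e.symm F ∈ X'.ker 1 := by
      apply mem_ker_one
      apply e.injective
      rw [map_zero]
      ext j
      rw [Pi.zero_apply]
      refine Fin.cases ?_ (fun j => ?_) j
      · rw [h2, LinearEquiv.apply_symm_apply]
        have h5 : F 0 = ((-X.N) ^ m) (X.vec y) := by simp [F]
        rw [h5]
        have h6 := hy
        rw [pow_succ', Module.End.mul_apply, LinearMap.neg_apply, neg_eq_zero] at h6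
        exact h6
      · rw [h3, LinearEquiv.apply_symm_apply]
        have h5 : F j.castSucc = (-X.N) (F j.succ) := by
          simp only [F, Fin.val_succ, Fin.val_castSucc]
          rw [← Module.End.mul_apply, ← pow_succ']
          congr 2
          have := j.2
          omega
        rw [h5, LinearMap.neg_apply, add_neg_cancel]
    refine ⟨X'.mk' (e.symm F) hx, X.vec_inj ?_⟩
    rw [hE]
    simp [F]
  refine ⟨LinearEquiv.ofBijective E ⟨hinj, hsurj⟩, fun w x => X.vec_inj ?_⟩
  change e (X'.r w (X'.vec x)) (Fin.last m) = X.r w (e (X'.vec x) (Fin.last m))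
  rw [h1]
  simp [WeilGroup.qz]

/-- The kernel of `N` on the tensor product with a permutation representation. -/
lemma perm_equiv {X' X : WDRep G K} {H : Subgroup G.W} (h : IsPermOf X' X H) :
    ∃ e : X'.Ker 1 ≃ₗ[K] (G.W ⧸ H → X.Ker 1),
      ∀ w x, e (X'.kerRep 1 w x) = permRep (X.kerRep 1) H w (e x) := by
  obtain ⟨e, h1, h2⟩ := h
  replace h1 : ∀ w x y, e (X'.r w x) y = X.r w (e x (w⁻¹ • y)) := h1
  replace h2 : ∀ x y, e (X'.N x) y = X.N (e x y) := h2
  have hk : ∀ (x : X'.Ker 1) (y : G.W ⧸ H), e (X'.vec x) y ∈ X.ker 1 := by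
    intro x y
    apply mem_ker_one
    rw [← h2, ker_one X' x, map_zero, Pi.zero_apply]
  let E : X'.Ker 1 →ₗ[K] (G.W ⧸ H → X.Ker 1) :=
    { toFun := fun x y => X.mk' (e (X'.vec x) y) (hk x y)
      map_add' := fun x y => funext fun z => X.vec_inj (by simp)
      map_smul' := fun c x => funext fun z => X.vec_inj (by simp) }
  have hE : ∀ x y, X.vec (E x y) = e (X'.vec x) y := fun _ _ => rfl
  have hinj : Function.Injective E := by
    rw [injective_iff_map_eq_zero]
    intro x hx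
    have h4 : e (X'.vec x) = 0 := by
      ext j
      rw [← hE, hx]
      simp
    refine X'.vec_inj ?_
    rw [LinearEquiv.map_eq_zero_iff] at h4
    exact h4
  have hsurj : Function.Surjective E := by
    intro y
    have hx : e.symm (fun z => X.vec (y z)) ∈ X'.ker 1 := by
      apply mem_ker_one
      apply e.injective
      rw [map_zero]
      ext z
      rw [h2, LinearEquiv.apply_symm_apply, Pi.zero_apply]
      exact ker_one X (y z)
    refine ⟨X'.mk' _ hx, funext fun z => X.vec_inj ?_⟩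
    rw [hE]
    simp
  refine ⟨LinearEquiv.ofBijective E ⟨hinj, hsurj⟩, fun w x => funext fun z => X.vec_inj ?_⟩
  change e (X'.r w (X'.vec x)) z = X.r w (e (X'.vec x) (w⁻¹ • z))
  rw [h1]

/-- Both constructions. -/
lemma both_equiv {X'' X' X : WDRep G K} {H : Subgroup G.W} {m : ℕ} (h : IsPermOf X'' X' H)
    (h' : IsSymOf X' X m) :
    ∃ e : X''.Ker 1 ≃ₗ[K] (G.W ⧸ H → X.Ker (m + 1)),
      ∀ w x, e (X''.kerRep 1 w x) = permRep (X.kerRep (m + 1)) H w (e x) := by
  obtain ⟨e, he⟩ := perm_equiv h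
  obtain ⟨e', he'⟩ := sym_equiv h'
  refine ⟨e.trans (LinearEquiv.piCongrRight fun _ => e'), fun w x => ?_⟩
  funext z
  rw [LinearEquiv.trans_apply, he]
  simp [he']

/-- The trace on the invariants. -/
lemma inertMap_trace (X : WDRep G K) (w : G.W) :
    LinearMap.trace K _ (X.inertMap w) = LinearMap.trace K _ (frob G.v.ker (X.kerRep 1) w) := by
  have h1 : ∀ x : inv G.v.ker (X.kerRep 1), X.vec (x : X.Ker 1) ∈ X.inert := by
    intro x
    refine ⟨ker_one X _, fun g hg => ?_⟩
    have h2 := x.2 g ((mem_ker_vl G.v g).2 hg)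
    exact congrArg X.vec h2
  let E : inv G.v.ker (X.kerRep 1) →ₗ[K] X.Inert :=
    { toFun := fun x => Subtype.mk (p := (· ∈ X.inert)) (X.vec (x : X.Ker 1)) (h1 x)
      map_add' := fun x y => rfl
      map_smul' := fun c x => rfl }
  have hE : ∀ x, Subtype.val (p := (· ∈ X.inert)) (E x) = X.vec (x : X.Ker 1) := fun _ => rfl
  have hinj : Function.Injective E := by
    intro x y hxy
    apply Subtype.ext
    apply X.vec_inj
    rw [← hE, ← hE, hxy]
  have hsurj : Function.Surjective E := by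
    intro y
    have hy : Subtype.val (p := (· ∈ X.inert)) y ∈ X.inert := Subtype.property (p := (· ∈ X.inert)) y
    have hy1 : X.N (Subtype.val (p := (· ∈ X.inert)) y) = 0 := hy.1
    refine ⟨⟨X.mk' _ (mem_ker_one X hy1), ?_⟩, ?_⟩
    · intro g hg
      apply X.vec_inj
      exact hy.2 g ((mem_ker_vl G.v g).1 hg)
    · apply Subtype.ext
      rw [hE]
      rfl
  let e : inv G.v.ker (X.kerRep 1) ≃ₗ[K] X.Inert := LinearEquiv.ofBijective E ⟨hinj, hsurj⟩
  have he : e.conj (frob G.v.ker (X.kerRep 1) w) = X.inertMap w := by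
    refine LinearMap.ext fun x => ?_
    obtain ⟨y, rfl⟩ := e.surjective x
    rw [LinearEquiv.conj_apply_apply, LinearEquiv.symm_apply_apply]
    rfl
  rw [← he, LinearMap.trace_conj']

lemma inertMap_pow (X : WDRep G K) (w : G.W) (n : ℕ) : X.inertMap w ^ n = X.inertMap (w ^ n) := by
  induction n with
  | zero =>
    refine LinearMap.ext fun x => Subtype.ext ?_
    show _ = X.r (w ^ 0) _
    rw [pow_zero, pow_zero, map_one]
    rfl
  | succ n ih =>
    rw [pow_succ, ih]
    refine LinearMap.ext fun x => Subtype.ext ?_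
    show X.r (w ^ n) (X.r w _) = X.r (w ^ (n + 1)) _
    rw [pow_succ w, map_mul]
    rfl

end

namespace Data

variable (D : Data)

/-- The traces on `ker N ^ m` are rational and independent of `ℓ`. -/
def Tr (M : D.Mot) (i : ℤ) (m : ℕ) (w : D.G.W) : Prop :=
  ∃ t : ℚ, ∀ l, LinearMap.trace (D.K l) _ ((D.rep l M i).kerRep m w) = algebraMap ℚ (D.K l) t

variable {D}

lemma indep_iff_tr (M : D.Mot) (i : ℤ) (m : ℕ) (w : D.G.W) :
    (∃ P : ℚ[X], ∀ l, (D.rep l M i).poly m w = P.map (algebraMap ℚ (D.K l))) ↔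
      ∀ n : ℕ, D.Tr M i m (w ^ (n + 1)) := by
  have h := indep_iff D.K (fun l => (D.rep l M i).Ker m)
    (fun l => (D.rep l M i).kerRep m w)
  refine h.trans ?_
  unfold IndepTrace Tr
  constructor
  · rintro ⟨t, ht⟩ n
    exact ⟨t n, fun l => by rw [map_pow]; exact ht l n⟩
  · intro h
    choose t ht using h
    exact ⟨t, fun l n => by rw [← map_pow]; exact ht n l⟩

lemma factor_iff (M : D.Mot) (i : ℤ) : D.Independent M i ↔
    ∃ t : ℕ → ℚ, ∀ l n, LinearMap.trace (D.K l) _
      (frob D.G.v.ker ((D.rep l M i).kerRep 1) (D.G.Φ ^ (n + 1))) = algebraMap ℚ (D.K l) (t n) := by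
  have h := indep_iff D.K (fun l => (D.rep l M i).Inert) (fun l => (D.rep l M i).inertMap D.G.Φ)
  refine h.trans ?_
  unfold IndepTrace
  simp only [inertMap_pow, inertMap_trace]

/-- The inertia elements acting trivially. -/
def J (D : Data) (l : D.Pr) (M : D.Mot) (i : ℤ) : Subgroup D.G.W :=
  D.G.v.ker ⊓ MonoidHom.ker (D.rep l M i).r

instance (l : D.Pr) (M : D.Mot) (i : ℤ) : (D.J l M i).Normal := by
  unfold J
  infer_instance

lemma J_open (l : D.Pr) (M : D.Mot) (i : ℤ) : IsOpen (D.J l M i : Set D.G.W) := by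
  have h : (D.J l M i : Set D.G.W) = {w : D.G.W | (D.rep l M i).Trivial w} := by
    ext w
    show w ∈ D.G.v.ker ⊓ MonoidHom.ker (D.rep l M i).r ↔ (D.rep l M i).Trivial w
    rw [Subgroup.mem_inf, MonoidHom.mem_ker (f := (D.rep l M i).r), mem_ker_vl]
    refine and_congr_right fun _ => ?_
    constructor
    · intro h x
      show (D.rep l M i).r w x = x
      rw [h]
      rfl
    · intro h
      ext x
      exact h x
  rw [h]
  exact D.smooth l M i

lemma finite_quot (J : Subgroup D.G.W) (hJ : IsOpen (J : Set D.G.W)) :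
    Finite (D.G.v.ker ⧸ J.subgroupOf D.G.v.ker) := by
  haveI : CompactSpace D.G.v.ker := isCompact_iff_compactSpace.1 D.G.compact
  refine Subgroup.quotient_finite_of_isOpen _ ?_
  exact hJ.preimage continuous_subtype_val

lemma finite_index (J : Subgroup D.G.W) [J.Normal] (hJ : IsOpen (J : Set D.G.W)) {w : D.G.W} {f : ℕ}
    (hf : 0 < f) (hw : vl D.G.v w = f) : (J ⊔ Subgroup.zpowers w).FiniteIndex := by
  haveI := finite_quot J hJ
  set H := J ⊔ Subgroup.zpowers w with hH
  have hwH : w ∈ H := (le_sup_right : Subgroup.zpowers w ≤ H) (Subgroup.mem_zpowers w)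
  have hJH : J ≤ H := le_sup_left
  let F : Fin f × (D.G.v.ker ⧸ J.subgroupOf D.G.v.ker) → D.G.W ⧸ H :=
    fun x => ((((x.2.out : D.G.v.ker) : D.G.W) * D.G.Φ ^ (x.1 : ℕ) : D.G.W) : D.G.W ⧸ H)
  have hF : Function.Surjective F := by
    intro y
    obtain ⟨y, rfl⟩ := QuotientGroup.mk_surjective y
    obtain ⟨g, j, b, hg, hy⟩ := exists_form D.G.hΦ hf hw y
    have hg' : g ∈ D.G.v.ker := (mem_ker_vl D.G.v g).2 hg
    refine ⟨(j, ((⟨g, hg'⟩ : D.G.v.ker) : D.G.v.ker ⧸ J.subgroupOf D.G.v.ker)), ?_⟩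
    show ((_ : D.G.W) : D.G.W ⧸ H) = _
    rw [QuotientGroup.eq]
    obtain ⟨h, hh⟩ := QuotientGroup.mk_out_eq_mul (J.subgroupOf D.G.v.ker) (⟨g, hg'⟩ : D.G.v.ker)
    have hh' : ((((((⟨g, hg'⟩ : D.G.v.ker) : D.G.v.ker ⧸ J.subgroupOf D.G.v.ker)).out :
        D.G.v.ker)) : D.G.W) = g * ((h : D.G.v.ker) : D.G.W) := by
      rw [hh]
      rfl
    have hhJ : ((h : D.G.v.ker) : D.G.W) ∈ J := Subgroup.mem_subgroupOf.1 h.2
    simp only
    rw [hh', hy]
    have h4 : (g * ((h : D.G.v.ker) : D.G.W) * D.G.Φ ^ (j : ℕ))⁻¹ * (g * D.G.Φ ^ (j : ℕ) * w ^ b) =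
        ((D.G.Φ ^ (j : ℕ))⁻¹ * (((h : D.G.v.ker) : D.G.W))⁻¹ * ((D.G.Φ ^ (j : ℕ))⁻¹)⁻¹) *
          w ^ b := by group
    rw [h4]
    exact H.mul_mem (hJH (‹J.Normal›.conj_mem _ (J.inv_mem hhJ) _)) (H.zpow_mem hwH b)
  haveI : Finite (D.G.W ⧸ H) := Finite.of_surjective F hF
  exact Subgroup.finiteIndex_of_finite_quotient

lemma kerRep_trivial {l : D.Pr} {M : D.Mot} {i : ℤ} (m : ℕ) {J : Subgroup D.G.W}
    (h : ∀ g ∈ J, (D.rep l M i).r g = 1) : ∀ g ∈ J, (D.rep l M i).kerRep m g = 1 := by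
  intro g hg
  refine LinearMap.ext fun x => (D.rep l M i).vec_inj ?_
  rw [WDRep.vec_kerRep, h g hg]
  rfl

/-- Elements of positive valuation. -/
lemma tr_pos (M : D.Mot) (i : ℤ) (m : ℕ)
    (h : ∀ H : Subgroup D.G.W, IsOpen (H : Set D.G.W) → H.FiniteIndex →
      D.Independent (D.art (D.sym M m) H) (i + m)) {w : D.G.W} {f : ℕ} (hf : 0 < f)
    (hw : vl D.G.v w = f) : D.Tr M i (m + 1) w := by
  by_cases hP : Nonempty D.Pr
  swap
  · exact ⟨0, fun l => (hP ⟨l⟩).elim⟩
  obtain ⟨l0⟩ := hP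
  have key : ∀ l, ∃ c : ℚ, LinearMap.trace (D.K l) _ ((D.rep l M i).kerRep (m + 1) w) =
      algebraMap ℚ (D.K l) c ∧ LinearMap.trace (D.K l0) _ ((D.rep l0 M i).kerRep (m + 1) w) =
      algebraMap ℚ (D.K l0) c := by
    intro l
    set J := D.J l M i ⊓ D.J l0 M i with hJ
    have hJo : IsOpen (J : Set D.G.W) := by
      rw [hJ, Subgroup.coe_inf]
      exact (J_open l M i).inter (J_open l0 M i)
    have hJI : J ≤ D.G.v.ker := inf_le_left.trans inf_le_left
    haveI : J.Normal := by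
      rw [hJ]
      infer_instance
    set H := J ⊔ Subgroup.zpowers w with hH
    have hHo : IsOpen (H : Set D.G.W) := Subgroup.isOpen_mono le_sup_left hJo
    have hHf : H.FiniteIndex := finite_index J hJo hf hw
    obtain ⟨t, ht⟩ := (factor_iff _ _).1 (h H hHo hHf)
    have hf1 : f - 1 + 1 = f := by omega
    have calc1 : ∀ l', (∀ g ∈ J, (D.rep l' M i).r g = 1) →
        LinearMap.trace (D.K l') _ ((D.rep l' M i).kerRep (m + 1) w) =
        algebraMap ℚ (D.K l') (t (f - 1) / f) := by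
      intro l' hl'
      obtain ⟨e, he⟩ := both_equiv (D.isArt l' (D.sym M m) (i + m) H hHo hHf) (D.isSym l' M i m)
      have h1 := ht l' (f - 1)
      rw [hf1, trace_frob_equiv D.G.v.ker _ _ (D.G.Φ ^ f) e he] at h1
      have h2 := trace_ind (K := D.K l') D.G.hΦ hJI hf hw ((D.rep l' M i).kerRep (m + 1))
        (kerRep_trivial (m + 1) hl')
      rw [h1] at h2
      have hf0 : (f : D.K l') ≠ 0 := by exact_mod_cast hf.ne'
      rw [map_div₀, map_natCast, h2]
      field_simp
    exact ⟨t (f - 1) / f, calc1 l fun g hg => MonoidHom.mem_ker.1 (hg.1.2),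
      calc1 l0 fun g hg => MonoidHom.mem_ker.1 (hg.2.2)⟩
  obtain ⟨c0, hc0, -⟩ := key l0
  refine ⟨c0, fun l => ?_⟩
  obtain ⟨c, hc, hc'⟩ := key l
  have : c = c0 := by
    rw [hc0] at hc'
    exact (algebraMap ℚ (D.K l0)).injective hc'.symm
  rw [hc, this]

lemma kerRep_det_ne (l : D.Pr) (M : D.Mot) (i : ℤ) (m : ℕ) (w : D.G.W) :
    LinearMap.det ((D.rep l M i).kerRep m w) ≠ 0 := by
  have h1 : (D.rep l M i).kerRep m w * (D.rep l M i).kerRep m w⁻¹ = 1 := by
    rw [← map_mul, mul_inv_cancel, map_one]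
  intro h
  have h2 := congrArg LinearMap.det h1
  rw [map_mul, h, zero_mul, map_one] at h2
  exact one_ne_zero h2.symm

/-- All elements. -/
lemma tr_all (M : D.Mot) (i : ℤ) (m : ℕ)
    (h : ∀ H : Subgroup D.G.W, IsOpen (H : Set D.G.W) → H.FiniteIndex →
      D.Independent (D.art (D.sym M m) H) (i + m)) (w : D.G.W) : D.Tr M i (m + 1) w := by
  set k : ℕ := (vl D.G.v w).natAbs + 1 with hk
  have hkpos : 0 < k := by omega
  have hΦk : vl D.G.v (D.G.Φ ^ k) = k := by rw [vl_pow, D.G.hΦ, mul_one]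
  have hpow : ∀ n : ℕ, D.Tr M i (m + 1) ((D.G.Φ ^ k) ^ (n + 1)) := by
    intro n
    refine tr_pos M i m h (f := (n + 1) * k) (by positivity) ?_
    rw [vl_pow, hΦk]
    push_cast
    ring
  have hind := (indep_iff_tr M i (m + 1) (D.G.Φ ^ k)).2 hpow
  have hS : ∀ n : ℕ, 1 ≤ n → ∃ t : ℚ, ∀ l, LinearMap.trace (D.K l) _
      ((D.rep l M i).kerRep (m + 1) w * ((D.rep l M i).kerRep (m + 1) (D.G.Φ ^ k)) ^ n) =
      algebraMap ℚ (D.K l) t := by
    intro n hn
    have hv : vl D.G.v (w * (D.G.Φ ^ k) ^ n) = ((vl D.G.v w + n * k).toNat : ℕ) := by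
      rw [vl_mul, vl_pow, hΦk]
      rw [Int.toNat_of_nonneg]
      have h1 : (k : ℤ) = |vl D.G.v w| + 1 := by
        rw [hk]
        push_cast
        rfl
      have h2 : (1 : ℤ) ≤ n := by exact_mod_cast hn
      have h3 : -|vl D.G.v w| ≤ vl D.G.v w := neg_abs_le _
      nlinarith [abs_nonneg (vl D.G.v w)]
    have hpos : 0 < (vl D.G.v w + n * k).toNat := by
      have h1 : (k : ℤ) = |vl D.G.v w| + 1 := by
        rw [hk]
        push_cast
        rfl
      have h2 : (1 : ℤ) ≤ n := by exact_mod_cast hn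
      have h3 : -|vl D.G.v w| ≤ vl D.G.v w := neg_abs_le _
      have h4 : 0 < vl D.G.v w + n * k := by nlinarith [abs_nonneg (vl D.G.v w)]
      omega
    obtain ⟨t, ht⟩ := tr_pos M i m h hpos hv
    refine ⟨t, fun l => ?_⟩
    rw [← map_pow, ← map_mul]
    exact ht l
  exact extend_trace D.K (fun l => (D.rep l M i).Ker (m + 1))
    (fun l => (D.rep l M i).kerRep (m + 1) (D.G.Φ ^ k)) (fun l => (D.rep l M i).kerRep (m + 1) w)
    (fun l => kerRep_det_ne l M i (m + 1) _) hind hS

/-- Averaging: rational traces on `ker N` give rational Euler factors. -/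
lemma independent_of_tr (M : D.Mot) (i : ℤ) (h : ∀ w, D.Tr M i 1 w) : D.Independent M i := by
  rw [factor_iff]
  choose T hT using h
  by_cases hP : Nonempty D.Pr
  swap
  · exact ⟨0, fun l => (hP ⟨l⟩).elim⟩
  obtain ⟨l0⟩ := hP
  have key : ∀ l (n : ℕ), ∃ c : ℚ, LinearMap.trace (D.K l) _
      (frob D.G.v.ker ((D.rep l M i).kerRep 1) (D.G.Φ ^ (n + 1))) = algebraMap ℚ (D.K l) c ∧
      LinearMap.trace (D.K l0) _
      (frob D.G.v.ker ((D.rep l0 M i).kerRep 1) (D.G.Φ ^ (n + 1))) =
        algebraMap ℚ (D.K l0) c := by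
    intro l n
    set J := D.J l M i ⊓ D.J l0 M i with hJ
    have hJo : IsOpen (J : Set D.G.W) := by
      rw [hJ, Subgroup.coe_inf]
      exact (J_open l M i).inter (J_open l0 M i)
    haveI : J.Normal := by
      rw [hJ]
      infer_instance
    haveI := finite_quot J hJo
    haveI : Fintype (D.G.v.ker ⧸ J.subgroupOf D.G.v.ker) := Fintype.ofFinite _
    have calc1 : ∀ l', (∀ g ∈ J, (D.rep l' M i).r g = 1) →
        LinearMap.trace (D.K l') _ (frob D.G.v.ker ((D.rep l' M i).kerRep 1) (D.G.Φ ^ (n + 1))) =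
        algebraMap ℚ (D.K l') (((Fintype.card (D.G.v.ker ⧸ J.subgroupOf D.G.v.ker) : ℕ) : ℚ)⁻¹ *
          ∑ x : D.G.v.ker ⧸ J.subgroupOf D.G.v.ker, T (D.G.Φ ^ (n + 1) * (x.out : D.G.v.ker))) := by
      intro l' hl'
      rw [trace_avg D.G.v.ker J ((D.rep l' M i).kerRep 1) (kerRep_trivial 1 hl'), map_mul,
        map_inv₀, map_natCast, map_sum]
      congr 1
      exact Finset.sum_congr rfl fun x _ => hT _ l'
    exact ⟨_, calc1 l fun g hg => MonoidHom.mem_ker.1 (hg.1.2),
      calc1 l0 fun g hg => MonoidHom.mem_ker.1 (hg.2.2)⟩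
  choose c hc hc' using key
  refine ⟨fun n => c l0 n, fun l n => ?_⟩
  have : c l n = c l0 n := by
    have h1 := hc' l n
    rw [hc' l0 n] at h1
    exact (algebraMap ℚ (D.K l0)).injective h1.symm
  rw [hc l n, this]

lemma tr_zero (M : D.Mot) (i : ℤ) (w : D.G.W) : D.Tr M i 0 w := by
  refine ⟨0, fun l => ?_⟩
  have h : (D.rep l M i).kerRep 0 w = 0 := by
    refine LinearMap.ext fun x => ?_
    rw [ker_zero _ x, map_zero]
    rfl
  rw [h, map_zero, map_zero]

theorem level_iff_tr (M : D.Mot) (i : ℤ) (m : ℕ) : D.Level M i m ↔ ∀ w, D.Tr M i m w := by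
  constructor
  · intro h w
    have := (indep_iff_tr M i m w).1 (h w) 0
    simpa using this
  · intro h w
    exact (indep_iff_tr M i m w).2 fun n => h _

/-- **One motive, one degree, one power of `N`.** -/
theorem level_iff (M : D.Mot) (i : ℤ) (m : ℕ) : D.Level M i (m + 1) ↔
    ∀ H : Subgroup D.G.W, IsOpen (H : Set D.G.W) → H.FiniteIndex →
      D.Independent (D.art (D.sym M m) H) (i + m) := by
  classical
  rw [level_iff_tr]
  constructor
  · intro h H hH hf
    refine independent_of_tr _ _ fun w => ?_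
    obtain ⟨t, ht⟩ := h w
    haveI := hf
    haveI : Fintype (D.G.W ⧸ H) := Fintype.ofFinite _
    refine ⟨∑ x : D.G.W ⧸ H, if w⁻¹ • x = x then t else 0, fun l => ?_⟩
    obtain ⟨e, he⟩ := both_equiv (D.isArt l (D.sym M m) (i + m) H hH hf) (D.isSym l M i m)
    rw [trace_equiv _ _ w e he, trace_twisted (fun _ => (D.rep l M i).kerRep (m + 1) w)
      (fun x => w⁻¹ • x) _ (fun F x => rfl), map_sum]
    refine Finset.sum_congr rfl fun x _ => ?_
    split_ifs
    · exact ht l
    · rw [map_zero]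
  · intro h w
    exact tr_all M i m h w

/-- **All motives.** -/
theorem all_iff : (∀ M i, D.Independent M i) ↔ ∀ M i m, D.Level M i m := by
  constructor
  · intro h M i m
    cases m with
    | zero => exact (level_iff_tr M i 0).2 fun w => tr_zero M i w
    | succ m =>
      rw [level_iff]
      intro H _ _
      exact h _ _
  · intro h M i
    exact independent_of_tr M i ((level_iff_tr M i 1).1 (h M i 1))

end Data

end Pool.Agent.Q56.WD
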