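import Pool.Agent.Q187.IL.Newton

/-!
# Traces of a representation and of the permutation modules with coefficients in it

`W` is a group with a homomorphism `v` to the integers, with kernel `I` (inertia), `Φ` an element
with `v Φ = 1` (Frobenius).
-/

set_option autoImplicit false

open Polynomial

namespace Pool.Agent.Q56.WD

open Pool.Agent.Q187.IL (revPoly)

section

variable {G : Type} [Group G] {K V V' : Type} [Field K]
  [AddCommGroup V] [Module K V] [AddCommGroup V'] [Module K V']

/-- The invariants of the subgroup `I`. -/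
def inv (I : Subgroup G) (ρ : Representation K G V) : Submodule K V where
  carrier := {v | ∀ g ∈ I, ρ g v = v}
  add_mem' ha hb g hg := by rw [map_add, ha g hg, hb g hg]
  zero_mem' g _ := map_zero _
  smul_mem' c v hv g hg := by rw [map_smul, hv g hg]

theorem mem_inv {I : Subgroup G} {ρ : Representation K G V} {v : V} :
    v ∈ inv I ρ ↔ ∀ g ∈ I, ρ g v = v := Iff.rfl

theorem frob_mem (I : Subgroup G) [I.Normal] (ρ : Representation K G V) (F : G) (v : V)
    (hv : v ∈ inv I ρ) : ρ F v ∈ inv I ρ := by
  intro g hg
  have h1 : F⁻¹ * g * F ∈ I := by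
    have := ‹I.Normal›.conj_mem g hg F⁻¹
    rwa [inv_inv] at this
  have h2 : g * F = F * (F⁻¹ * g * F) := by group
  rw [← Module.End.mul_apply, ← map_mul, h2, map_mul, Module.End.mul_apply, hv _ h1]

/-- The action of `F` on the invariants of the normal subgroup `I`. -/
def frob (I : Subgroup G) [I.Normal] (ρ : Representation K G V) (F : G) :
    inv I ρ →ₗ[K] inv I ρ := (ρ F).restrict (frob_mem I ρ F)

theorem frob_coe (I : Subgroup G) [I.Normal] (ρ : Representation K G V) (F : G)
    (v : inv I ρ) : (frob I ρ F v : V) = ρ F v := rfl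

theorem frob_pow (I : Subgroup G) [I.Normal] (ρ : Representation K G V) (F : G) (n : ℕ) :
    frob I ρ F ^ n = frob I ρ (F ^ n) := by
  ext v
  induction n generalizing v with
  | zero => simp [frob_coe]
  | succ n ih =>
    rw [pow_succ, Module.End.mul_apply, ih, frob_coe, frob_coe, frob_coe, pow_succ, map_mul,
      Module.End.mul_apply]

/-- Transport of the trace on the invariants. -/
lemma trace_frob_equiv (I : Subgroup G) [I.Normal] (ρ : Representation K G V)
    (ρ' : Representation K G V') (w : G) (e : V ≃ₗ[K] V') (he : ∀ g u, e (ρ g u) = ρ' g (e u)) :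
    LinearMap.trace K _ (frob I ρ w) = LinearMap.trace K _ (frob I ρ' w) := by
  have h1 : ∀ v, v ∈ inv I ρ ↔ e v ∈ inv I ρ' := by
    intro v
    rw [mem_inv, mem_inv]
    refine forall₂_congr fun g hg => ?_
    rw [← e.injective.eq_iff, he]
  have h2 : (inv I ρ).map (e : V →ₗ[K] V') = inv I ρ' := by
    ext v
    rw [Submodule.mem_map]
    constructor
    · rintro ⟨w, hw, rfl⟩
      exact (h1 w).1 hw
    · intro hv
      exact ⟨e.symm v, (h1 _).2 (by simpa using hv), by simp⟩
  let E : inv I ρ ≃ₗ[K] inv I ρ' := e.submoduleMap _ |>.trans (LinearEquiv.ofEq _ _ h2)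
  have hE : ∀ v : inv I ρ, ((E v : inv I ρ') : V') = e v := fun v => rfl
  have h3 : E.conj (frob I ρ w) = frob I ρ' w := by
    ext v
    rw [LinearEquiv.conj_apply_apply, hE, frob_coe, he, frob_coe]
    congr 1
    have := hE (E.symm v)
    rw [LinearEquiv.apply_symm_apply] at this
    rw [← this]
  rw [← LinearMap.trace_conj' (frob I ρ w) E, h3]

end

section

variable {W K U U' : Type} [Group W] [Field K] [AddCommGroup U] [Module K U]
  [AddCommGroup U'] [Module K U']

/-- The action of `w` on the functions on `W / H` with values in `U`. -/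
def permMap (ρ : Representation K W U) (H : Subgroup W) (w : W) :
    (W ⧸ H → U) →ₗ[K] (W ⧸ H → U) where
  toFun F x := ρ w (F (w⁻¹ • x))
  map_add' F G := by ext x; simp
  map_smul' c F := by ext x; simp

lemma permMap_one (ρ : Representation K W U) (H : Subgroup W) : permMap ρ H 1 = 1 := by
  ext F x
  simp [permMap]

lemma permMap_mul (ρ : Representation K W U) (H : Subgroup W) (a b : W) :
    permMap ρ H (a * b) = permMap ρ H a * permMap ρ H b := by
  ext F x
  simp [permMap, mul_smul]

/-- Functions on `W / H` with values in `U`: the tensor product of `U` and the permutation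
representation on `W / H`. -/
def permRep (ρ : Representation K W U) (H : Subgroup W) : Representation K W (W ⧸ H → U) where
  toFun := permMap ρ H
  map_one' := permMap_one ρ H
  map_mul' := permMap_mul ρ H

@[simp] lemma permRep_apply (ρ : Representation K W U) (H : Subgroup W) (w : W) (F : W ⧸ H → U)
    (x : W ⧸ H) : permRep ρ H w F x = ρ w (F (w⁻¹ • x)) := rfl

/-- The trace of a linear map on `ι → U` of the form `F ↦ (x ↦ A x (F (σ x)))`. -/
lemma trace_twisted [FiniteDimensional K U] {ι : Type} [Fintype ι] [DecidableEq ι]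
    (A : ι → (U →ₗ[K] U)) (σ : ι → ι) (T : (ι → U) →ₗ[K] (ι → U))
    (hT : ∀ F x, T F x = A x (F (σ x))) :
    LinearMap.trace K _ T = ∑ x, if σ x = x then LinearMap.trace K U (A x) else 0 := by
  have h1 : T = ∑ x, (LinearMap.single K (fun _ : ι => U) x) ∘ₗ (A x ∘ₗ LinearMap.proj (σ x)) := by
    ext i u j
    rw [LinearMap.comp_apply, hT, LinearMap.comp_apply, LinearMap.sum_apply, Finset.sum_apply]
    rw [Finset.sum_eq_single j]
    · simp
    · intro b _ hb
      simp [Pi.single_apply, hb.symm]
    · intro h
      exact absurd (Finset.mem_univ j) h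
  rw [h1, map_sum]
  refine Finset.sum_congr rfl fun x _ => ?_
  rw [LinearMap.trace_comp_comm', LinearMap.comp_assoc]
  split_ifs with h
  · congr 1
    ext u
    simp [h]
  · have : LinearMap.proj (σ x) ∘ₗ LinearMap.single K (fun _ : ι => U) x = 0 := by
      ext u
      simp [Pi.single_apply, h]
    rw [this, LinearMap.comp_zero, map_zero]

/-- Transport of the trace. -/
lemma trace_equiv (ρ : Representation K W U)
    (ρ' : Representation K W U') (w : W) (e : U ≃ₗ[K] U') (he : ∀ g u, e (ρ g u) = ρ' g (e u)) :
    LinearMap.trace K _ (ρ w) = LinearMap.trace K _ (ρ' w) := by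
  have h : e.conj (ρ w) = ρ' w := by
    ext u
    rw [LinearEquiv.conj_apply_apply, he, LinearEquiv.apply_symm_apply]
  rw [← h, LinearMap.trace_conj']

end

end Pool.Agent.Q56.WD
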